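import Pool.Agent.TH717.SK.Dec
import Pool.Agent.TH717.ST.Sgn
import Pool.Agent.TH717.SD.Crit
import Pool.Agent.TH717.SD.Dec
import Pool.Agent.TH997.SP.Cons

set_option autoImplicit false

/-!
# Positivity of each fixed simple integer recurrence, of any order, is decidable

Let `u_{n+k} = b_1 u_{n+k-1} + ... + b_k u_n` be a fixed simple integer recurrence of any order
`k`. It is decidable, given the integer initial values `a`, whether all terms are nonnegative.

* There is a constant `B` such that for all integer initial values `a` each sign which occurs at an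
  index `n > B (1 + log (1 + |a_1| + ... + |a_k|))` occurs infinitely often, in an arithmetic
  progression. So if all but finitely many terms are nonnegative then all negative terms have index
  at most `B (1 + log (1 + |a_1| + ... + |a_k|))` (subspace theorem, see `TH717/ST`).
* If `ρ` is the largest modulus of a characteristic root with nonzero contribution in a residue
  class of indices, then the sign of `u_n` at large `n` is the sign of this contribution. Divided by
  `ρ ^ n` it is a linear form at the powers of an element of a torus, and by Kronecker's theorem the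
  nonnegativity of all its values is a semialgebraic condition over `ℚ` for `a`
  (Tarski-Seidenberg, library `H581R2`, `TH729/SQ`); membership of integer vectors in a fixed
  semialgebraic set over `ℚ` is decidable.
-/

namespace Pool.Agent.Results.MP_5326a7_lc.FixedSimpleRecurrences

open Polynomial
open Pool.Agent.H692R2.USS hiding IsLRS
open Pool.Agent.TH997.US Pool.Agent.TH997.SP Pool.Agent.TH717.SK Pool.Agent.H884R2.Sko
open Pool.Agent.Helper446.RE (cp_eq cp_le cp_lt cp_comp cite)
open scoped Classical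

/-- `u` is the integer linear recurrence sequence given by the data `p = (c, a)`: the list `c` of
coefficients `c_1, ..., c_d`, where `d ≥ 1` and `c_d ≠ 0`, and the list `a` of the `d` initial
values. -/
def IsLRS (p : List ℤ × List ℤ) (u : ℕ → ℤ) : Prop :=
  p.1.length = p.2.length ∧ 1 ≤ p.1.length ∧ p.1.getD (p.1.length - 1) 0 ≠ 0 ∧
    (∀ i, i < p.1.length → u i = p.2.getD i 0) ∧
    ∀ n : ℕ, u (n + p.1.length) =
      ∑ j ∈ Finset.range p.1.length, p.1.getD j 0 * u (n + p.1.length - 1 - j)

/-- the sum of the absolute values of the entries -/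
def size (a : List ℤ) : ℕ := (a.map Int.natAbs).sum

/-- the characteristic polynomial `X^d - c_1 X^(d-1) - ... - c_d` -/
noncomputable def chp (c : List ℤ) : ℤ[X] :=
  X ^ c.length - ∑ j ∈ Finset.range c.length, C (c.getD j 0) * X ^ (c.length - 1 - j)

theorem isLRS_iff (p : List ℤ × List ℤ) (u : ℕ → ℤ) :
    IsLRS p u ↔ Val (cv p) ∧ u = sq (cv p) := by
  constructor
  · rintro ⟨h1, h2, h3, h4, h5⟩
    have hv : Val (cv p) := (val_cv p).2 ⟨h1, h2, h3⟩
    exact ⟨hv, funext ((rec_iff hv u).1 ⟨h4, h5⟩)⟩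
  · rintro ⟨hv, rfl⟩
    obtain ⟨h1, h2, h3⟩ := (val_cv p).1 hv
    obtain ⟨h4, h5⟩ := (rec_iff hv (sq (cv p))).2 fun _ => rfl
    exact ⟨h1, h2, h3, h4, h5⟩

theorem chp_eq (c : List ℤ) : chp c = charPoly (fun i : Fin c.length => c.getD i 0) := by
  unfold chp charPoly
  rw [Finset.sum_range]

theorem isSeq_of {c a : List ℤ} {u : ℕ → ℤ} (hu : IsLRS (c, a) u) :
    IsSeq (fun i : Fin c.length => c.getD i 0) (fun i : Fin c.length => a.getD i 0) u := by
  refine ⟨fun i => hu.2.2.2.1 i i.2, fun n => ?_⟩
  have := hu.2.2.2.2 n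
  simp only at this
  rw [this, Finset.sum_range]

theorem norm_le_size {d : ℕ} (a : List ℤ) : ‖(fun i : Fin d => a.getD i 0)‖ ≤ size a := by
  rw [pi_norm_le_iff_of_nonneg (Nat.cast_nonneg _)]
  intro i
  rw [Int.norm_eq_abs]
  by_cases hi : (i : ℕ) < a.length
  · have h1 : a.getD i 0 = a[(i : ℕ)] := by
      rw [List.getD_eq_getElem?_getD, List.getElem?_eq_getElem hi]
      rfl
    rw [h1]
    have h2 : (a[(i : ℕ)]).natAbs ≤ size a := by
      unfold size
      exact List.single_le_sum (fun _ _ => Nat.zero_le _) _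
        (List.mem_map_of_mem (List.getElem_mem hi))
    have h3 : |(a[(i : ℕ)] : ℤ)| ≤ ((size a : ℕ) : ℤ) := by
      rw [Int.abs_eq_natAbs]
      exact_mod_cast h2
    exact_mod_cast h3
  · have h1 : a.getD i 0 = 0 := by
      rw [List.getD_eq_getElem?_getD, List.getElem?_eq_none (by omega)]
      rfl
    rw [h1]
    simp

/-- the signs of the terms with large indices, squarefree case -/
theorem signs (c : List ℤ) (hc1 : 1 ≤ c.length)
    (hs : Squarefree ((chp c).map (Int.castRingHom ℚ))) :
    ∃ L : ℕ, 1 ≤ L ∧ ∃ B : ℕ, ∀ a u, IsLRS (c, a) u → ∀ n : ℕ,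
      B * (1 + Real.log (1 + size a)) < n →
      (∀ m, u (n + L * m) = 0) ∨
        (0 < u n ∧ ∀ N, ∃ m, N ≤ m ∧ 0 < u (n + L * m)) ∨
        (u n < 0 ∧ ∀ N, ∃ m, N ≤ m ∧ u (n + L * m) < 0) := by
  rw [chp_eq] at hs
  obtain ⟨L, hL, B, hB, h⟩ := Pool.Agent.TH717.ST.signs0 _
    (charPoly_monic (fun i : Fin c.length => c.getD i 0))
    (by rw [charPoly_natDegree]; exact hc1) hs
  obtain ⟨N, hN⟩ := exists_nat_ge B
  refine ⟨L, hL, N, fun a u hu n hn => ?_⟩
  have hA : (1 : ℝ) ≤ 1 + size a := by
    have : (0 : ℝ) ≤ size a := Nat.cast_nonneg _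
    linarith
  have hlog : 0 ≤ Real.log (1 + size a) := Real.log_nonneg hA
  have hn' : B * (1 + Real.log (1 + size a)) < n := by
    refine lt_of_le_of_lt ?_ hn
    gcongr
  have hann := ann_of_isSeq (isSeq_of hu)
  have hb : ∀ k < (charPoly (fun i : Fin c.length => c.getD i 0)).natDegree,
      |(u k : ℝ)| ≤ 1 + size a := by
    rw [charPoly_natDegree]
    intro k hk
    have h1 := norm_le_size (d := c.length) a
    have h2 := norm_le_pi_norm (fun i : Fin c.length => a.getD i 0) ⟨k, hk⟩
    rw [Int.norm_eq_abs] at h2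
    have h3 : u k = a.getD k 0 := hu.2.2.2.1 k hk
    rw [h3]
    linarith
  have h1 := h u hann _ hA hb n hn'
  have hneg : Ann (charPoly (fun i : Fin c.length => c.getD i 0)) (fun n => -u n) := by
    unfold Ann at hann ⊢
    have h2 : (fun n => -u n) = -u := rfl
    rw [h2, map_neg, hann, neg_zero]
  have h2 := h (fun n => -u n) hneg _ hA (fun k hk => by
    rw [Int.cast_neg, abs_neg]
    exact hb k hk) n hn'
  rcases h1 with h1 | ⟨h1, h1'⟩
  · exact Or.inl h1
  · rcases lt_or_gt_of_ne h1 with h3 | h3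
    · exact Or.inr (Or.inr ⟨h3, h1' h3⟩)
    · right
      left
      refine ⟨h3, ?_⟩
      rcases h2 with h2 | ⟨_, h2⟩
      · have := h2 0
        rw [mul_zero, add_zero] at this
        omega
      · intro N
        obtain ⟨m, hm, h4⟩ := h2 (by omega) N
        exact ⟨m, hm, by omega⟩

/-- the signs of the terms with large indices, squarefree case -/
theorem signs' (c : List ℤ) (hs : Squarefree ((chp c).map (Int.castRingHom ℚ))) :
    ∃ L : ℕ, 1 ≤ L ∧ ∃ B : ℕ, ∀ a u, IsLRS (c, a) u → ∀ n : ℕ,
      B * (1 + Real.log (1 + size a)) < n →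
      (∀ m, u (n + L * m) = 0) ∨
        (0 < u n ∧ ∀ N, ∃ m, N ≤ m ∧ 0 < u (n + L * m)) ∨
        (u n < 0 ∧ ∀ N, ∃ m, N ≤ m ∧ u (n + L * m) < 0) := by
  by_cases hc1 : 1 ≤ c.length
  · exact signs c hc1 hs
  · exact ⟨1, le_rfl, 0, fun a u hu => absurd hu.2.1 hc1⟩

theorem computable_size : Computable size := by
  have h1 : Primrec (fun a : List ℤ => (a.map Int.natAbs).sum) := by
    have h2 : Primrec Int.natAbs := by
      refine (Primrec.nat_add.comp (Primrec.fst.comp primrec_zc)
        (Primrec.snd.comp primrec_zc)).of_eq fun z => ?_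
      unfold zc
      simp only
      omega
    have h3 : Primrec (fun a : List ℤ => a.foldr (fun z s => z.natAbs + s) 0) :=
      Primrec.list_foldr Primrec.id (Primrec.const 0)
        (Primrec.nat_add.comp (h2.comp (Primrec.fst.comp Primrec.snd))
          (Primrec.snd.comp Primrec.snd)).to₂
    refine h3.of_eq fun a => ?_
    induction a with
    | nil => rfl
    | cons z a ih => simp [ih]
  exact h1.to_comp

/-- the terms with index less than `N (1 + |a|)` are nonnegative -/
theorem exists_test : ∃ D : (List ℤ × List ℤ) × ℕ → Prop, ComputablePred D ∧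
    ∀ p N u, IsLRS p u → (D (p, N) ↔ ∀ n < N * (1 + size p.2), 0 ≤ u n) := by
  refine ⟨fun x => ¬ ∃ n < x.2 * (1 + size x.1.2), (vv (cv x.1) n).1 < (vv (cv x.1) n).2, ?_, ?_⟩
  · apply ComputablePred.not
    refine cp_ex (p := fun (x : (List ℤ × List ℤ) × ℕ) n =>
      (vv (cv x.1) n).1 < (vv (cv x.1) n).2) ?_ ?_
    · have h1 : Computable fun x : ((List ℤ × List ℤ) × ℕ) × ℕ => vv (cv x.1.1) x.2 :=
        cvv (computable_cv.comp (Computable.fst.comp Computable.fst)) Computable.snd
      exact cp_lt (Computable.fst.comp h1) (Computable.snd.comp h1)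
    · have h1 : Computable fun p : (List ℤ × List ℤ) × ℕ => size p.1.2 :=
        computable_size.comp (Computable.snd.comp Computable.fst)
      fun_prop
  · intro p N u hu
    obtain ⟨hv, rfl⟩ := (isLRS_iff p u).1 hu
    simp only [not_exists, not_and, not_lt]
    refine forall_congr' fun n => forall_congr' fun _ => ?_
    rw [sq_eq]
    unfold iv
    omega

/-- decidability for a fixed recurrence -/
theorem decidable_fixed (b : List ℤ) (hb : Squarefree ((chp b).map (Int.castRingHom ℚ))) :
    ComputablePred (fun a : List ℤ => ∃ u, IsLRS (b, a) u ∧ ∀ n, 0 ≤ u n) := by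
  classical
  by_cases hb1 : 1 ≤ b.length ∧ b.getD (b.length - 1) 0 ≠ 0
  swap
  · refine (Pool.Agent.TH717.SD.cp_true False).of_eq fun a => ?_
    constructor
    · exact fun h => h.elim
    · rintro ⟨u, hu, -⟩
      exact hb1 ⟨hu.2.1, hu.2.2.1⟩
  obtain ⟨hb1, hb0⟩ := hb1
  have hs := hb
  rw [chp_eq] at hs
  set f := charPoly (fun i : Fin b.length => b.getD i 0) with hf
  have hmon : f.Monic := charPoly_monic (fun i : Fin b.length => b.getD i 0)
  have hdeg : f.natDegree = b.length := charPoly_natDegree (fun i : Fin b.length => b.getD i 0)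
  have hc0 : f.coeff 0 ≠ 0 := by
    rw [hf, charPoly_coeff_zero hb1]
    exact neg_ne_zero.2 hb0
  obtain ⟨L, hL, B, hB, Q, hQ, h⟩ := Pool.Agent.TH717.SD.critS f hmon
    (by rw [hdeg]; exact hb1) hc0 hs
  obtain ⟨N, hN⟩ := exists_nat_ge B
  obtain ⟨D, hD, hDt⟩ := exists_test
  -- the semialgebraic condition in terms of the initial values
  set Q' : ℕ → (Fin f.natDegree → ℝ) → Prop := fun rr s =>
    Q (fun k => ∑ j, ((((Pool.Agent.TH717.ST.comp f) ^ rr) k j : ℤ) : ℝ) * s j) with hQ'
  have hQ'S : ∀ rr, Pool.Agent.H581R2.SAP (Q' rr) := fun rr =>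
    Pool.Agent.H581R2.SAP.preimage hQ fun k =>
      Pool.Agent.H581R2.PF.sum Finset.univ fun j _ =>
        (by
          have h1 := (Pool.Agent.H581R2.PF.const (ι := Fin f.natDegree)
            ((((Pool.Agent.TH717.ST.comp f) ^ rr) k j : ℤ) : ℚ)).mul
              (Pool.Agent.H581R2.PF.coord j)
          simpa using h1)
  have hcp : Computable fun a : List ℤ => cv (b, a) :=
    computable_cv.comp ((Computable.const b).pair Computable.id)
  have hmain : ComputablePred (fun a : List ℤ => Val (cv (b, a)) ∧ (D ((b, a), N + 1) ∧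
      ∀ rr ∈ Finset.range L, Q' rr (fun i =>
        ((Pool.Agent.TH717.SD.vec f.natDegree a i : ℤ) : ℝ)))) := by
    refine cp_and (cp_comp cp_val hcp) (cp_and ?_ ?_)
    · exact cp_comp hD (f := fun a : List ℤ => ((b, a), N + 1))
        (((Computable.const b).pair Computable.id).pair (Computable.const (N + 1)))
    · exact Pool.Agent.TH717.SD.cp_forall_mem _ _ fun rr _ =>
        Pool.Agent.TH717.SD.cp_sap (Q' rr) (hQ'S rr)
  refine hmain.of_eq fun a => ?_
  have key : ∀ u, IsLRS (b, a) u → ((∀ n, 0 ≤ u n) ↔ D ((b, a), N + 1) ∧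
      ∀ rr ∈ Finset.range L, Q' rr (fun i =>
        ((Pool.Agent.TH717.SD.vec f.natDegree a i : ℤ) : ℝ))) := by
    intro u hu
    have hann : Ann f u := ann_of_isSeq (isSeq_of hu)
    have hA : (1 : ℝ) ≤ 1 + size a := by
      have : (0 : ℝ) ≤ size a := Nat.cast_nonneg _
      linarith
    have hbd : ∀ k < f.natDegree, |(u k : ℝ)| ≤ 1 + size a := by
      rw [hdeg]
      intro k hk
      have h1 := norm_le_size (d := b.length) a
      have h2 := norm_le_pi_norm (fun i : Fin b.length => a.getD i 0) ⟨k, hk⟩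
      rw [Int.norm_eq_abs] at h2
      have h3 : u k = a.getD k 0 := hu.2.2.2.1 k hk
      rw [h3]
      linarith
    have hst : ∀ rr, (fun k : Fin f.natDegree => ((u (rr + k) : ℤ) : ℝ)) = fun k =>
        ∑ j, ((((Pool.Agent.TH717.ST.comp f) ^ rr) k j : ℤ) : ℝ) *
          ((Pool.Agent.TH717.SD.vec f.natDegree a j : ℤ) : ℝ) := by
      intro rr
      have h1 := Pool.Agent.TH717.ST.comp_pow f hmon u hann 0 rr
      funext k
      have h2 := congrFun h1 k
      rw [zero_add] at h2
      rw [h2]
      simp only [Matrix.mulVec, dotProduct]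
      push_cast
      refine Finset.sum_congr rfl fun j _ => ?_
      congr 1
      rw [zero_add]
      have hj : (j : ℕ) < b.length := lt_of_lt_of_eq j.2 hdeg
      have h3 : u j = a.getD j 0 := hu.2.2.2.1 j hj
      rw [h3]
      rfl
    rw [h u hann _ hA hbd, hDt _ _ _ hu]
    have hQr : (∀ rr < L, Q (fun k => ((u (rr + k) : ℤ) : ℝ))) ↔
        ∀ rr ∈ Finset.range L, Q' rr (fun i =>
          ((Pool.Agent.TH717.SD.vec f.natDegree a i : ℤ) : ℝ)) := by
      refine forall_congr' fun rr => ?_
      rw [Finset.mem_range]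
      refine imp_congr_right fun _ => ?_
      rw [hst rr]
    constructor
    · rintro ⟨h1, h2⟩
      have hpos := (h u hann _ hA hbd).2 ⟨h1, h2⟩
      exact ⟨fun n _ => hpos n, hQr.1 h2⟩
    · rintro ⟨h1, h2⟩
      refine ⟨fun n hn => h1 n ?_, hQr.2 h2⟩
      have h3 : (0 : ℝ) ≤ size a := Nat.cast_nonneg _
      have h4 : Real.log (1 + size a) ≤ size a := by
        have := Real.log_le_sub_one_of_pos (show (0 : ℝ) < 1 + size a by linarith)
        linarith
      have h4' : 0 ≤ Real.log (1 + size a) := Real.log_nonneg hA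
      have h5 : (n : ℝ) < (N + 1) * (1 + size a) := by
        calc (n : ℝ) ≤ B * (1 + Real.log (1 + size a)) := hn
          _ ≤ N * (1 + size a) := by gcongr
          _ < (N + 1) * (1 + size a) := by nlinarith
      exact_mod_cast h5
  constructor
  · rintro ⟨hv, hD1, hQ1⟩
    have hu : IsLRS (b, a) (sq (cv (b, a))) := (isLRS_iff _ _).2 ⟨hv, rfl⟩
    exact ⟨_, hu, (key _ hu).2 ⟨hD1, hQ1⟩⟩
  · rintro ⟨u, hu, hpos⟩
    exact ⟨((isLRS_iff _ _).1 hu).1, (key u hu).1 hpos⟩

theorem result :
    -- one decidable test, which reads any linear recurrence sequence and a number `N`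
    ∃ D : (List ℤ × List ℤ) × ℕ → Prop, ComputablePred D ∧
      -- it is satisfied if all terms are nonnegative
      (∀ p N u, IsLRS p u → (∀ n, 0 ≤ u n) → D (p, N)) ∧
      -- for every simple recurrence, of any order
      ∀ b : List ℤ, Squarefree ((chp b).map (Int.castRingHom ℚ)) →
        -- Positivity, as a problem in the initial values, is decidable
        ComputablePred (fun a : List ℤ => ∃ u, IsLRS (b, a) u ∧ ∀ n, 0 ≤ u n) ∧
        -- if `N` is large in terms of `b` then for all initial values the test reduces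
        -- Positivity to Ultimate Positivity
        (∃ N₀ : ℕ, ∀ N, N₀ ≤ N → ∀ a u, IsLRS (b, a) u →
          ((∀ n, 0 ≤ u n) ↔ D ((b, a), N) ∧ ∃ M, ∀ n, M ≤ n → 0 ≤ u n)) ∧
        -- because the signs of all terms with large index are recurrent
        (∃ L : ℕ, 1 ≤ L ∧ ∃ B : ℕ, ∀ a u, IsLRS (b, a) u → ∀ n : ℕ,
          B * (1 + Real.log (1 + size a)) < n →
            (∀ m, u (n + L * m) = 0) ∨
            (0 < u n ∧ ∀ N, ∃ m, N ≤ m ∧ 0 < u (n + L * m)) ∨
            (u n < 0 ∧ ∀ N, ∃ m, N ≤ m ∧ u (n + L * m) < 0)) := by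
  obtain ⟨D, hD, h⟩ := exists_test
  refine ⟨D, hD, fun p N u hu hpos => (h p N u hu).2 fun n _ => hpos n, fun b hb => ?_⟩
  obtain ⟨L, hL, B, hB⟩ := signs' b hb
  refine ⟨decidable_fixed b hb, ⟨B + 1, fun N hN a u hu => ?_⟩, L, hL, B, hB⟩
  rw [h _ _ _ hu]
  constructor
  · intro hpos
    exact ⟨fun n _ => hpos n, 0, fun n _ => hpos n⟩
  · rintro ⟨h1, M, hM⟩ n
    by_contra hneg
    push Not at hneg
    by_cases hn : n < N * (1 + size a)
    · have := h1 n hn
      omega
    · push Not at hn
      have h3 : (0 : ℝ) ≤ size a := Nat.cast_nonneg _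
      have h4 : Real.log (1 + size a) ≤ size a := by
        have := Real.log_le_sub_one_of_pos (show (0 : ℝ) < 1 + size a by linarith)
        linarith
      have h5 : (B : ℝ) * (1 + Real.log (1 + size a)) < n := by
        have h6 : ((B + 1 : ℕ) : ℝ) * (1 + size a) ≤ n := by
          have h7 : (B + 1) * (1 + size a) ≤ n := (Nat.mul_le_mul_right _ hN).trans hn
          exact_mod_cast h7
        push_cast at h6
        have h7 : (B : ℝ) * (1 + Real.log (1 + size a)) ≤ B * (1 + size a) := by gcongr
        nlinarith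
      rcases hB a u hu n h5 with h6 | ⟨h6, _⟩ | ⟨_, h6⟩
      · have := h6 0
        rw [mul_zero, add_zero] at this
        omega
      · omega
      · obtain ⟨m, hm, h7⟩ := h6 M
        have h8 := hM (n + L * m) (by nlinarith)
        omega

end Pool.Agent.Results.MP_5326a7_lc.FixedSimpleRecurrences
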